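import Mathlib
import Pool.Agent.Lib.helper18.Gr3

set_option autoImplicit false

open Classical Matrix SimpleGraph

namespace Pool.Agent.Results.MP_7ca01f_co.Hubs

/-- Laplacian quadratic form `xᵀ (D - W) x` of the weighted adjacency matrix `W`. -/
noncomputable def lq {V : Type} [Fintype V] (W : Matrix V V ℝ) (x : V → ℝ) : ℝ :=
  x ⬝ᵥ ((diagonal (fun i => ∑ j, W i j) - W) *ᵥ x)

/-- Largest eigenvalue. -/
noncomputable def lam {V : Type} [Fintype V] (W : Matrix V V ℝ) : ℝ := sSup (spectrum ℝ W)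

/-- `W` is the adjacency matrix of an edge-deleting `(1 ± ε)`-Laplacian sparsifier of `G`. -/
def Sparsifier {V : Type} [Fintype V] (G : SimpleGraph V) (ε : ℝ) (W : Matrix V V ℝ) : Prop :=
  (∀ i j, W i j = W j i) ∧ (∀ i j, 0 ≤ W i j) ∧ (∀ i j, W i j ≠ 0 → G.Adj i j) ∧
  (∃ i j, G.Adj i j ∧ W i j = 0) ∧
  ∀ x, (1 - ε) * lq (G.adjMatrix ℝ) x ≤ lq W x ∧ lq W x ≤ (1 + ε) * lq (G.adjMatrix ℝ) x

lemma lq_eq {V : Type} [Fintype V] (W : Matrix V V ℝ) (h : ∀ i j, W i j = W j i) (x : V → ℝ) :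
    2 * lq W x = ∑ i, ∑ j, W i j * (x i - x j) ^ 2 := by
  have e1 : ∑ i, ∑ j, W i j * x j ^ 2 = ∑ i, ∑ j, W i j * x i ^ 2 := by
    rw [Finset.sum_comm]; simp only [h]
  have e2 : ∀ i j, W i j * (x i - x j) ^ 2 =
    W i j * x i ^ 2 + W i j * x j ^ 2 - 2 * (x i * (W i j * x j)) := fun i j => by ring
  simp only [e2, Finset.sum_sub_distrib, Finset.sum_add_distrib, e1, lq, sub_mulVec, dotProduct,
    Pi.sub_apply, mulVec_diagonal, mul_sub, ← Finset.mul_sum]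
  simp only [mulVec, dotProduct, ← Finset.sum_mul]
  have : ∀ i, x i * ((∑ j, W i j) * x i) = (∑ j, W i j) * x i ^ 2 := fun i => by ring
  simp only [this]
  ring

open Sum

def G0 (N : ℕ) : SimpleGraph (Fin 3 ⊕ Fin N) where
  Adj i j := i ≠ j ∧ (i.isLeft ∨ j.isLeft)
  symm := ⟨fun _ _ h => ⟨h.1.symm, h.2.symm⟩⟩
  loopless := ⟨fun _ h => h.1 rfl⟩

noncomputable def W0 (N : ℕ) : Matrix (Fin 3 ⊕ Fin N) (Fin 3 ⊕ Fin N) ℝ :=
  fromBlocks !![0, 1 + N / 4, 0; 1 + N / 4, 0, 1; 0, 1, 0] (of fun _ _ => 1) (of fun _ _ => 1) 0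

lemma A0 (N : ℕ) : (G0 N).adjMatrix ℝ =
    fromBlocks !![0, 1, 1; 1, 0, 1; 1, 1, 0] (of fun _ _ => 1) (of fun _ _ => 1) 0 := by
  ext i j
  rcases i with i | i <;> rcases j with j | j
  · fin_cases i <;> fin_cases j <;> simp [G0]
  all_goals simp [G0]

lemma W0_symm (N : ℕ) (i j : Fin 3 ⊕ Fin N) : W0 N i j = W0 N j i := by
  rcases i with i | i <;> rcases j with j | j
  · fin_cases i <;> fin_cases j <;> simp [W0]
  all_goals simp [W0]

lemma forms (N : ℕ) (x : Fin 3 ⊕ Fin N → ℝ) :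
    lq ((G0 N).adjMatrix ℝ) x = (x (inl 0) - x (inl 1)) ^ 2 + (x (inl 0) - x (inl 2)) ^ 2 +
      (x (inl 1) - x (inl 2)) ^ 2 + ∑ k : Fin N, ((x (inl 0) - x (inr k)) ^ 2 +
        (x (inl 1) - x (inr k)) ^ 2 + (x (inl 2) - x (inr k)) ^ 2) ∧
    lq (W0 N) x = (1 + N / 4) * (x (inl 0) - x (inl 1)) ^ 2 + (x (inl 1) - x (inl 2)) ^ 2 +
      ∑ k : Fin N, ((x (inl 0) - x (inr k)) ^ 2 + (x (inl 1) - x (inr k)) ^ 2 +
        (x (inl 2) - x (inr k)) ^ 2) := by
  have h1 := lq_eq ((G0 N).adjMatrix ℝ) (fun i j => by simp [adj_comm]) x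
  have h2 := lq_eq (W0 N) (W0_symm N) x
  have c : ∀ (a : ℝ) (k : Fin N), (x (inr k) - a) ^ 2 = (a - x (inr k)) ^ 2 := fun a k => by ring
  generalize lq ((G0 N).adjMatrix ℝ) x = a at h1 ⊢
  generalize lq (W0 N) x = b at h2 ⊢
  rw [A0] at h1
  unfold W0 at h2
  simp only [Fintype.sum_sum_type, fromBlocks_apply₁₁, fromBlocks_apply₁₂, fromBlocks_apply₂₁,
    fromBlocks_apply₂₂, of_apply, Fin.sum_univ_three, Finset.sum_add_distrib, one_mul,
    Matrix.zero_apply, zero_mul, Finset.sum_const_zero, add_zero] at h1 h2 ⊢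
  rw [Finset.sum_congr rfl fun k _ => c (x (inl 0)) k, Finset.sum_congr rfl fun k _ => c (x (inl 1)) k,
    Finset.sum_congr rfl fun k _ => c (x (inl 2)) k] at h1 h2
  generalize ∑ k, (x (inl 0) - x (inr k)) ^ 2 = s0 at h1 h2 ⊢
  generalize ∑ k, (x (inl 1) - x (inr k)) ^ 2 = s1 at h1 h2 ⊢
  generalize ∑ k, (x (inl 2) - x (inr k)) ^ 2 = s2 at h1 h2 ⊢
  simp at h1 h2
  constructor <;> nlinarith

theorem result : ∀ C : ℝ, ∃ (V : Type) (_ : Fintype V) (G : SimpleGraph V) (ε : ℝ)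
    (W : Matrix V V ℝ), G.Connected ∧ 0 < ε ∧ ε < 1 ∧ Sparsifier G ε W ∧
    C < |lam W - lam (G.adjMatrix ℝ)| / (ε * lam (G.adjMatrix ℝ)) := by
  intro C
  obtain ⟨t, ht⟩ := exists_nat_gt (max 2 (6 * C + 12))
  have t1 : (2 : ℝ) < t := (le_max_left _ _).trans_lt ht
  have t0 : 2 < t := by exact_mod_cast t1
  have t2 : 6 * C + 12 < t := (le_max_right _ _).trans_lt ht
  obtain ⟨N, hN⟩ : ∃ N : ℕ, (N : ℝ) = t * t := ⟨t * t, by push_cast; rfl⟩
  have N4 : (4 : ℝ) ≤ N := by nlinarith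
  refine ⟨Fin 3 ⊕ Fin N, inferInstance, G0 N, 1 / 2, W0 N, ?_, by norm_num, by norm_num,
    ⟨W0_symm N, fun i j => ?_, fun i j h => ?_, ⟨inl 0, inl 2, ?_, ?_⟩, fun x => ?_⟩, ?_⟩
  · refine H18Gr.conn_of_parent _ (inl 0) (fun _ => inl 0) (fun v => if v = inl 0 then 0 else 1)
      fun v => ?_
    by_cases h : v = inl 0
    · exact Or.inl h
    · exact Or.inr ⟨⟨h, Or.inr rfl⟩, by simp [h]⟩
  · rcases i with i | i <;> rcases j with j | j
    · fin_cases i <;> fin_cases j <;> simp [W0] <;> positivity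
    all_goals simp [W0]
  · rcases i with i | i <;> rcases j with j | j
    · fin_cases i <;> fin_cases j <;> simp [W0, G0] at h ⊢
    all_goals simp [W0, G0] at h ⊢
  · simp [G0]
  · simp [W0]
  · obtain ⟨e1, e2⟩ := forms N x
    rw [e1, e2]
    have b1 : ∑ k : Fin N, (x (inl 0) - x (inl 1)) ^ 2 / 2 ≤ ∑ k : Fin N,
        ((x (inl 0) - x (inr k)) ^ 2 + (x (inl 1) - x (inr k)) ^ 2 + (x (inl 2) - x (inr k)) ^ 2) :=
      Finset.sum_le_sum fun k _ => by
        nlinarith [sq_nonneg (x (inl 0) + x (inl 1) - 2 * x (inr k)), sq_nonneg (x (inl 2) - x (inr k))]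
    have b2 : ∑ k : Fin N, (x (inl 0) - x (inl 2)) ^ 2 / 2 ≤ ∑ k : Fin N,
        ((x (inl 0) - x (inr k)) ^ 2 + (x (inl 1) - x (inr k)) ^ 2 + (x (inl 2) - x (inr k)) ^ 2) :=
      Finset.sum_le_sum fun k _ => by
        nlinarith [sq_nonneg (x (inl 0) + x (inl 2) - 2 * x (inr k)), sq_nonneg (x (inl 1) - x (inr k))]
    simp only [Finset.sum_const, Finset.card_univ, Fintype.card_fin, nsmul_eq_mul] at b1 b2
    constructor <;> nlinarith [sq_nonneg (x (inl 0) - x (inl 1)), sq_nonneg (x (inl 0) - x (inl 2)),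
      sq_nonneg (x (inl 1) - x (inl 2))]
  · have r1 := @H18Spec.rayleigh_le_sSup _ _ (fun a b => propDecidable (a = b)) (W0 N)
      (by ext i j; simp [W0_symm N i j]) (Sum.elim ![1, 1, 0] 0)
    have r2 := @H18Spec.rayleigh_le_sSup _ _ (fun a b => propDecidable (a = b)) _
      (H18Gr.herm (G0 N)) (Sum.elim ![1, 1, 0] 0)
    change _ ≤ lam _ * _ at r1 r2
    have r3 : lam ((G0 N).adjMatrix ℝ) ≤ 3 * t := by
      refine Real.sSup_le (fun μ hμ => (le_abs_self μ).trans (@H18Spec.spec_le_of_pos_vec _ _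
        (fun a b => propDecidable (a = b)) _
        (fun i j => by simp only [adjMatrix_apply]; positivity) (Sum.elim (fun _ => (t : ℝ)) (fun _ => 1))
        (fun i => by rcases i with i | i <;> simp; omega) _ (fun i => ?_) _ hμ)) (by positivity)
      rw [A0]
      rcases i with i | i
      · fin_cases i <;> simp [mulVec, dotProduct, Fin.sum_univ_three] <;> nlinarith
      · simp [mulVec, dotProduct, Fin.sum_univ_three]
    generalize lam ((G0 N).adjMatrix ℝ) = a at r2 r3 ⊢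
    generalize lam (W0 N) = b at r1 ⊢
    rw [A0] at r2
    simp [W0, mulVec, dotProduct, Fin.sum_univ_three] at r1 r2
    rw [lt_div_iff₀ (by linarith)]
    refine lt_of_lt_of_le ?_ (le_abs_self _)
    rcases le_total C 0 with h | h <;> nlinarith

end Pool.Agent.Results.MP_7ca01f_co.Hubs
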